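import Pool.Agent.Helper94.UP.Sheet2

/-! Row ASD: the derivatives of `1/b` are dense in the dual. -/

set_option autoImplicit false

open scoped ContDiff NNReal
open Set Filter Topology

namespace Pool.Agent.Helper94.UP

universe u

theorem asd_lower {X : Type u} [NormedAddCommGroup X] [NormedSpace ℝ X] {ψ : X → ℝ}
    {L : X →L[ℝ] ℝ} {v : X} (hL : HasFDerivAt ψ L v) {ε : ℝ}
    (h : ∀ᶠ w in 𝓝 v, ψ v ≤ ψ w + ε * ‖w - v‖) (x : X) : - (ε * ‖x‖) ≤ L x := by
  have h1 : HasDerivAt (fun t : ℝ => ψ (v + t • x)) (L x) 0 := hL.hasLineDerivAt x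
  rw [hasDerivAt_iff_tendsto_slope] at h1
  have h2 : Tendsto (slope (fun t : ℝ => ψ (v + t • x)) 0) (𝓝[>] 0) (𝓝 (L x)) :=
    h1.mono_left (nhdsWithin_mono _ fun t ht => ne_of_gt ht)
  refine ge_of_tendsto h2 ?_
  have h3 : Tendsto (fun t : ℝ => v + t • x) (𝓝[>] 0) (𝓝 v) := by
    have : Continuous fun t : ℝ => v + t • x := by fun_prop
    have h4 := this.tendsto 0
    simp only [zero_smul, add_zero] at h4
    exact h4.mono_left nhdsWithin_le_nhds
  filter_upwards [h3.eventually h, self_mem_nhdsWithin] with t ht ht0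
  have ht0' : 0 < t := ht0
  rw [slope_def_field, sub_zero, zero_smul, add_zero, le_div_iff₀ ht0']
  rw [add_sub_cancel_left, norm_smul, Real.norm_eq_abs, abs_of_pos ht0'] at ht
  nlinarith

theorem stASD (hE : ST_EKE.{u}) : ST_ASD.{u} := by
  intro X _ _ _ b hb hb01 hb0 hbz g ε hε
  obtain ⟨β, hβ⟩ : ∃ β : ℝ, β = 1 / (1 + ‖g‖) := ⟨_, rfl⟩
  have hg1 : 0 < 1 + ‖g‖ := by positivity
  have hβ0 : 0 < β := by rw [hβ]; positivity
  have hgx : ∀ x, b x ≠ 0 → |g x| ≤ ‖g‖ := by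
    intro x hx
    have h1 : ‖x‖ < 1 := by
      by_contra hcon
      push Not at hcon
      exact hx (hbz x hcon)
    calc |g x| = ‖g x‖ := rfl
      _ ≤ ‖g‖ * ‖x‖ := g.le_opNorm x
      _ ≤ ‖g‖ * 1 := mul_le_mul_of_nonneg_left h1.le (norm_nonneg _)
      _ = ‖g‖ := mul_one _
  set S : Set X := {x | β ≤ b x ∧ 1 ≤ b x * (1 + g x)} with hS
  have hSc : IsClosed S := by
    have h1 : IsClosed {x | β ≤ b x} := isClosed_le continuous_const hb.continuous
    have h2 : IsClosed {x | 1 ≤ b x * (1 + g x)} :=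
      isClosed_le continuous_const (hb.continuous.mul (continuous_const.add g.continuous))
    exact h1.inter h2
  haveI : CompleteSpace S := hSc.completeSpace_coe
  have h0S : (0 : X) ∈ S := by
    refine ⟨?_, ?_⟩
    · rw [hb0, hβ, div_le_one hg1]
      have := norm_nonneg g
      linarith
    · rw [hb0, map_zero]; norm_num
  haveI : Nonempty S := ⟨⟨0, h0S⟩⟩
  have hcont : Continuous fun w : S => (b w)⁻¹ - g w := by
    refine Continuous.sub ?_ (g.continuous.comp continuous_subtype_val)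
    exact (hb.continuous.comp continuous_subtype_val).inv₀ fun w => (lt_of_lt_of_le hβ0 w.2.1).ne'
  obtain ⟨⟨v, hv⟩, hmin⟩ := hE (fun w : S => (b w)⁻¹ - g w) hcont ⟨-‖g‖, by
    rintro ⟨w, hw⟩
    have h1 : 0 < b w := lt_of_lt_of_le hβ0 hw.1
    have h2 := (abs_le.1 (hgx w h1.ne')).2
    have h3 : 0 < (b w)⁻¹ := inv_pos.2 h1
    show -‖g‖ ≤ (b w)⁻¹ - g w
    linarith⟩ ε hε
  have hv0 : 0 < b v := lt_of_lt_of_le hβ0 hv.1
  have hψv : (b v)⁻¹ - g v ≤ 1 := by
    have h1 : (b v)⁻¹ ≤ 1 + g v := by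
      rw [inv_le_iff_one_le_mul₀' hv0]
      exact hv.2
    linarith
  have hall : ∀ w, 0 < b w → (b v)⁻¹ - g v ≤ ((b w)⁻¹ - g w) + ε * ‖w - v‖ := by
    intro w hw
    by_cases hwS : w ∈ S
    · have h1 := hmin ⟨w, hwS⟩
      have h2 : dist (⟨w, hwS⟩ : S) ⟨v, hv⟩ = ‖w - v‖ := by
        rw [Subtype.dist_eq, dist_eq_norm]
      rw [h2] at h1
      exact h1
    · have h1 : 1 < (b w)⁻¹ - g w := by
        by_contra hcon
        push Not at hcon
        apply hwS
        have h2 : (b w)⁻¹ ≤ 1 + g w := by linarith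
        have h3 : 1 ≤ b w * (1 + g w) := by
          rw [inv_le_iff_one_le_mul₀' hw] at h2
          exact h2
        refine ⟨?_, h3⟩
        have h4 := (abs_le.1 (hgx w hw.ne')).2
        rw [hβ, div_le_iff₀ hg1]
        nlinarith
      have h2 : 0 ≤ ε * ‖w - v‖ := by positivity
      linarith
  refine ⟨v, hv0, ?_⟩
  have hd : DifferentiableAt ℝ (fun x => (b x)⁻¹) v :=
    ((hb.differentiable one_ne_zero) v).inv hv0.ne'
  have hψ : HasFDerivAt (fun x => (b x)⁻¹ - g x) (fderiv ℝ (fun x => (b x)⁻¹) v - g) v :=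
    hd.hasFDerivAt.sub g.hasFDerivAt
  have hev : ∀ᶠ w in 𝓝 v, (b v)⁻¹ - g v ≤ ((b w)⁻¹ - g w) + ε * ‖w - v‖ := by
    have : ∀ᶠ w in 𝓝 v, 0 < b w := hb.continuous.continuousAt.eventually (lt_mem_nhds hv0)
    filter_upwards [this] with w hw
    exact hall w hw
  refine ContinuousLinearMap.opNorm_le_bound _ hε.le fun x => ?_
  have h1 := asd_lower hψ hev x
  have h2 := asd_lower hψ hev (-x)
  rw [map_neg, norm_neg] at h2
  rw [Real.norm_eq_abs, abs_le]
  exact ⟨h1, by linarith⟩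

end Pool.Agent.Helper94.UP
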